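import Mathlib

/-!
# EN, package CH: Cayley-Hamilton
-/

set_option autoImplicit false

open Polynomial

namespace Pool.Agent.Helper90.EN

/-- a matrix with trivial kernel over a field is inverted by a polynomial without constant term -/
theorem inv_poly {I : Type*} [Fintype I] [DecidableEq I] (G : Matrix I I ℚ)
    (hG : ∀ t : I → ℚ, G.mulVec t = 0 → t = 0) :
    ∃ p : ℚ[X], aeval G (p * X) = (1 : Matrix I I ℚ) := by
  have hdet : G.det ≠ 0 := by
    intro h
    obtain ⟨v, hv, hv0⟩ := Matrix.exists_mulVec_eq_zero_iff.2 h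
    exact hv (hG v hv0)
  set q : ℚ[X] := G.charpoly with hq
  have hc : q.coeff 0 ≠ 0 := by
    rw [hq, Matrix.det_eq_sign_charpoly_coeff] at *
    intro h
    rw [h, mul_zero] at hdet
    exact hdet rfl
  refine ⟨-(Polynomial.C (q.coeff 0)⁻¹ * q.divX), ?_⟩
  have h1 : aeval G q = 0 := Matrix.aeval_self_charpoly G
  have h2 : q.divX * X + Polynomial.C (q.coeff 0) = q := Polynomial.divX_mul_X_add q
  have h3 : -(Polynomial.C (q.coeff 0)⁻¹ * q.divX) * X =
      1 - Polynomial.C (q.coeff 0)⁻¹ * q := by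
    have h4 : Polynomial.C (q.coeff 0)⁻¹ * Polynomial.C (q.coeff 0) = 1 := by
      rw [← C_mul, inv_mul_cancel₀ hc, C_1]
    linear_combination (-(Polynomial.C (q.coeff 0)⁻¹)) * h2 + h4
  rw [h3, map_sub, map_mul, h1, mul_zero, sub_zero, map_one]

theorem ch {K V I : Type*} [Field K] [CharZero K] [AddCommGroup V] [Module K V] [Fintype I]
    [DecidableEq I] (Ψ : V →ₗ[K] V) (e : I → V) (G : Matrix I I ℚ)
    (hΨ : ∀ i, Ψ (e i) = ∑ j, (G j i : K) • e j) (hG : ∀ t : I → ℚ, G.mulVec t = 0 → t = 0)
    (S : AddSubgroup V) (hSq : ∀ (c : ℚ), ∀ y ∈ S, (c : K) • y ∈ S) (hS : ∀ y ∈ S, Ψ y ∈ S)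
    (x : V) (hx : x ∈ Submodule.span K (Set.range e)) (h : Ψ x ∈ S) : x ∈ S := by
  obtain ⟨p, hp⟩ := inv_poly G hG
  -- the action of polynomials
  have hpow : ∀ (k : ℕ) (i : I), (Ψ ^ k) (e i) = ∑ j, (((G ^ k) j i : ℚ) : K) • e j := by
    intro k
    induction k with
    | zero =>
      intro i
      rw [pow_zero, pow_zero, Module.End.one_apply, Finset.sum_eq_single i]
      · rw [Matrix.one_apply_eq, Rat.cast_one, one_smul]
      · intro j _ hj
        rw [Matrix.one_apply_ne hj, Rat.cast_zero, zero_smul]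
      · intro h
        exact absurd (Finset.mem_univ i) h
    | succ k ih =>
      intro i
      rw [pow_succ, Module.End.mul_apply, hΨ, map_sum]
      simp only [map_smul, ih, Finset.smul_sum, smul_smul]
      rw [Finset.sum_comm]
      refine Finset.sum_congr rfl fun j _ => ?_
      rw [← Finset.sum_smul, pow_succ, Matrix.mul_apply, Rat.cast_sum]
      congr 1
      refine Finset.sum_congr rfl fun l _ => ?_
      rw [Rat.cast_mul, mul_comm]
  set P : K[X] := (p * X).map (algebraMap ℚ K) with hP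
  have hagree : ∀ i, aeval Ψ P (e i) = e i := by
    intro i
    have h1 : aeval Ψ P (e i) = ∑ j, (((aeval G (p * X)) j i : ℚ) : K) • e j := by
      rw [hP, aeval_eq_sum_range, aeval_eq_sum_range, LinearMap.sum_apply,
        natDegree_map (algebraMap ℚ K)]
      simp only [LinearMap.smul_apply, hpow, Finset.smul_sum, smul_smul, coeff_map]
      rw [Finset.sum_comm]
      refine Finset.sum_congr rfl fun j _ => ?_
      rw [← Finset.sum_smul, Matrix.sum_apply, Rat.cast_sum]
      congr 1
      refine Finset.sum_congr rfl fun l _ => ?_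
      rw [Matrix.smul_apply, smul_eq_mul, Rat.cast_mul]
      rfl
    rw [h1, hp, Finset.sum_eq_single i]
    · rw [Matrix.one_apply_eq, Rat.cast_one, one_smul]
    · intro j _ hj
      rw [Matrix.one_apply_ne hj, Rat.cast_zero, zero_smul]
    · intro h
      exact absurd (Finset.mem_univ i) h
  have hx1 : aeval Ψ P x = x := by
    have h1 : Submodule.span K (Set.range e) ≤ LinearMap.eqLocus (aeval Ψ P) LinearMap.id := by
      rw [Submodule.span_le]
      rintro _ ⟨i, rfl⟩
      exact hagree i
    exact h1 hx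
  have hpowS : ∀ k, (Ψ ^ k) (Ψ x) ∈ S := by
    intro k
    induction k with
    | zero =>
      rw [pow_zero]
      exact h
    | succ k ih =>
      rw [pow_succ', Module.End.mul_apply]
      exact hS _ ih
  have hx2 : aeval Ψ P x = ∑ k ∈ Finset.range (p.natDegree + 1),
      ((p.coeff k : ℚ) : K) • (Ψ ^ k) (Ψ x) := by
    rw [hP, Polynomial.map_mul, map_X, map_mul, aeval_X, Module.End.mul_apply,
      aeval_eq_sum_range, LinearMap.sum_apply, natDegree_map (algebraMap ℚ K)]
    refine Finset.sum_congr rfl fun k _ => ?_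
    rw [LinearMap.smul_apply, coeff_map]
    rfl
  rw [← hx1, hx2]
  exact S.sum_mem fun k _ => hSq _ _ (hpowS k)

end Pool.Agent.Helper90.EN
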