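import Mathlib

/-!
# EN, package POS: positivity for rational matrices
-/

set_option autoImplicit false

namespace Pool.Agent.Helper90.EN

theorem pos {W H : Type} [Fintype W] [DecidableEq W] [Fintype H] (E : H → Matrix W W ℚ)
    (X : Matrix W W ℚ)
    (h0 : (X.transpose * (∑ h, (E h).transpose * E h) * X * ∑ h, (E h).transpose * E h).trace = 0)
    (h h' : H) : E h * X * (E h').transpose = 0 := by
  -- the trace is the sum of the squares of the entries of `E h * X * (E h')ᵀ`
  have h1 : (X.transpose * (∑ h, (E h).transpose * E h) * X * ∑ h, (E h).transpose * E h).trace =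
      ∑ a, ∑ b, (((E a * X * (E b).transpose).transpose * (E a * X * (E b).transpose)).trace) := by
    have e1 : X.transpose * (∑ h, (E h).transpose * E h) * X * ∑ h, (E h).transpose * E h =
        ∑ b, ∑ a, X.transpose * ((E a).transpose * E a) * X * ((E b).transpose * E b) := by
      rw [Finset.mul_sum]
      refine Finset.sum_congr rfl fun b _ => ?_
      rw [Finset.mul_sum, Finset.sum_mul, Finset.sum_mul]
    rw [e1, Finset.sum_comm, Matrix.trace_sum]
    refine Finset.sum_congr rfl fun a _ => ?_
    rw [Matrix.trace_sum]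
    refine Finset.sum_congr rfl fun b _ => ?_
    rw [Matrix.transpose_mul, Matrix.transpose_mul, Matrix.transpose_transpose]
    have e2 : X.transpose * ((E a).transpose * E a) * X * ((E b).transpose * E b) =
        (X.transpose * (E a).transpose * (E a * X * (E b).transpose)) * E b := by
      simp only [mul_assoc]
    rw [e2, Matrix.trace_mul_comm]
    simp only [mul_assoc]
  have h2 : ∀ M : Matrix W W ℚ, (M.transpose * M).trace = ∑ j, ∑ i, M i j ^ 2 := by
    intro M
    rw [Matrix.trace]
    refine Finset.sum_congr rfl fun j _ => ?_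
    rw [Matrix.diag_apply, Matrix.mul_apply]
    refine Finset.sum_congr rfl fun i _ => ?_
    rw [Matrix.transpose_apply, sq]
  have h3 : ∀ M : Matrix W W ℚ, 0 ≤ (M.transpose * M).trace := by
    intro M
    rw [h2]
    exact Finset.sum_nonneg fun j _ => Finset.sum_nonneg fun i _ => sq_nonneg _
  rw [h1] at h0
  have h4 := (Finset.sum_eq_zero_iff_of_nonneg (fun a _ =>
    Finset.sum_nonneg fun b _ => h3 (E a * X * (E b).transpose))).1 h0 h (Finset.mem_univ h)
  have h5 := (Finset.sum_eq_zero_iff_of_nonneg (fun b _ =>
    h3 (E h * X * (E b).transpose))).1 h4 h' (Finset.mem_univ h')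
  rw [h2] at h5
  ext i j
  have h6 := (Finset.sum_eq_zero_iff_of_nonneg (fun j _ =>
    Finset.sum_nonneg fun i _ => sq_nonneg _)).1 h5 j (Finset.mem_univ j)
  have h7 := (Finset.sum_eq_zero_iff_of_nonneg (fun i _ => sq_nonneg _)).1 h6 i
    (Finset.mem_univ i)
  exact pow_eq_zero_iff two_ne_zero |>.1 h7

end Pool.Agent.Helper90.EN
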